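import Pool.Agent.H23.CMC.Targets

/-!
# cm4_modules G_UNI : the `L`-function of a function on the ideals is unique
-/

set_option autoImplicit false

open NumberField MeasureTheory Set Filter Complex
open scoped nonZeroDivisors Real

namespace Pool.Agent.H97.CMC

open Pool.Agent.H23.CMC
open Pool.Agent.H65.CM4 (Sq nm dg Pl rv)
open Pool.Agent.H65.CMC (Emb ty PrTo IsHk ms IsLk gg GM cG Km Idx cdc Fmc lc)
open Pool.Agent.H23.CM4 (nJ Jd Nr wB)
open Pool.Agent.H23.LC (HG ag)

theorem pf_UNI : T_UNI := by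
  intro K _ _ ψ L L' hL hL' s hs
  have hA := hL.1.analyticOnNhd isOpen_compl_singleton
  have hB := hL'.1.analyticOnNhd isOpen_compl_singleton
  have hc : IsPreconnected ({1}ᶜ : Set ℂ) := by
    have : 1 < Module.rank ℝ ℂ := by
      rw [Complex.rank_real_complex]
      norm_num
    exact (isConnected_compl_singleton_of_one_lt_rank this 1).isPreconnected
  have h2 : (2 : ℂ) ∈ ({1}ᶜ : Set ℂ) := by
    simp
  have he : L =ᶠ[nhds 2] L' := by
    have ho : IsOpen {s : ℂ | 1 < s.re} := isOpen_lt continuous_const Complex.continuous_re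
    have hm : (2 : ℂ) ∈ {s : ℂ | 1 < s.re} := by
      change (1 : ℝ) < (2 : ℂ).re
      simp
    filter_upwards [ho.mem_nhds hm] with s hs
    exact (hL.2 s hs).unique (hL'.2 s hs)
  exact hA.eqOn_of_preconnected_of_eventuallyEq hB hc h2 he hs

end Pool.Agent.H97.CMC
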